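import Pool.Agent.R409.RC.Pow
import Pool.Agent.R409.RA.Mer

/-!
# The phase-shifted sums at the central point of the L-functions of varieties over number fields
-/

set_option autoImplicit false

namespace Pool.Agent.R409.RC

open Complex MeasureTheory Filter Topology Set NumberField IsDedekindDomain
open Pool.Agent.W189.ML Pool.Agent.W189.LC Pool.Agent.W187.UR
open Pool.Agent.TH339.MP (nm two_le_nm)
open Pool.Agent.R409.EV (LProd)
open scoped ComplexConjugate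

variable {K : Type} [Field K] [NumberField K] {N : ℕ}

/-- the norms -/
noncomputable def qv (v : HeightOneSpectrum (𝓞 K)) : ℝ := (Ideal.absNorm v.asIdeal : ℝ)

lemma two_le_qv (v : HeightOneSpectrum (𝓞 K)) : 2 ≤ qv v := by
  have := two_le_nm v
  unfold qv
  exact_mod_cast this

lemma qv_pos (v : HeightOneSpectrum (𝓞 K)) : 0 < qv v := by linarith [two_le_qv v]

/-- the normalised parameters -/
noncomputable def av (i : ℕ) (α : HeightOneSpectrum (𝓞 K) → Fin N → ℂ)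
    (v : HeightOneSpectrum (𝓞 K)) (j : Fin N) : ℂ :=
  α v j * ((qv v ^ (-(((i : ℝ) + 1) / 2)) : ℝ) : ℂ)

variable {i : ℕ} {α : HeightOneSpectrum (𝓞 K) → Fin N → ℂ}

theorem ed (h1 : ∀ v j, ‖α v j‖ ≤ (Ideal.absNorm v.asIdeal : ℝ) ^ ((i : ℝ) / 2))
    (h2 : ∀ v, CI (α v)) : ED qv (av i α) where
  two_le := two_le_qv
  sum := fun σ hσ => Pool.Agent.H921R2.TatePole.nm_summable hσ
  norm_le := fun v j => by
    have hq := qv_pos v
    unfold av
    rw [norm_mul, Complex.norm_real, Real.norm_of_nonneg (Real.rpow_nonneg hq.le _)]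
    calc ‖α v j‖ * qv v ^ (-(((i : ℝ) + 1) / 2)) ≤
        qv v ^ ((i : ℝ) / 2) * qv v ^ (-(((i : ℝ) + 1) / 2)) :=
          mul_le_mul_of_nonneg_right (h1 v j) (Real.rpow_nonneg hq.le _)
      _ = qv v ^ (-(1 / 2) : ℝ) := by
          rw [← Real.rpow_add hq]
          congr 1
          ring
  real := fun v => (h2 v).mul_real (Complex.conj_ofReal _)

lemma LProd_shift (w : ℂ) : LProd α ((((i : ℝ) + 1) / 2 : ℝ) + w) =
    ∏' v : HeightOneSpectrum (𝓞 K), ∏ j, (1 - av i α v j * (qv v : ℂ) ^ (-w))⁻¹ := by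
  unfold LProd
  refine tprod_congr fun v => Finset.prod_congr rfl fun j _ => ?_
  have hq : (qv v : ℂ) ≠ 0 := by exact_mod_cast (qv_pos v).ne'
  have e1 : (Ideal.absNorm v.asIdeal : ℂ) = (qv v : ℂ) := by
    unfold qv
    push_cast
    rfl
  unfold av
  rw [e1, neg_add, Complex.cpow_add _ _ hq, Complex.ofReal_cpow (qv_pos v).le]
  push_cast
  rw [mul_assoc]

lemma order_shift' (F : ℂ → ℂ) (s₀ x : ℂ) :
    meromorphicOrderAt (fun w => F (s₀ + w)) x = meromorphicOrderAt F (s₀ + x) := by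
  have h1 : (fun w : ℂ => F (s₀ + w)) = F ∘ (· + s₀) := by
    funext w; simp [add_comm]
  rw [h1, meromorphicOrderAt_comp_add_const_eq_meromorphicOrderAt, add_comm]

lemma coeff_shift' (F : ℂ → ℂ) (s₀ : ℂ) :
    meromorphicTrailingCoeffAt (fun w => F (s₀ + w)) 0 = meromorphicTrailingCoeffAt F s₀ := by
  have h1 : (fun w : ℂ => F (s₀ + w)) = F ∘ (· + s₀) := by
    funext w; simp [add_comm]
  rw [h1, meromorphicTrailingCoeffAt_comp_add_const_eq_meromorphicTrailingCoeffAt, zero_add]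

/-- `F` continues the L-function to a neighbourhood of the real segment between the central point and
the edge of the half-plane of absolute convergence -/
structure SCont (i : ℕ) (α : HeightOneSpectrum (𝓞 K) → Fin N → ℂ) (F : ℂ → ℂ) : Prop where
  mer : ∀ σ : ℝ, ((i : ℝ) + 1) / 2 ≤ σ → σ ≤ (i : ℝ) / 2 + 1 → MeromorphicAt F (σ : ℂ)
  eq : ∀ s : ℂ, (i : ℝ) / 2 + 1 < s.re → F s = LProd α s

variable {F : ℂ → ℂ}

lemma SCont.mero (h : SCont i α F)
    (h1 : ∀ v j, ‖α v j‖ ≤ (Ideal.absNorm v.asIdeal : ℝ) ^ ((i : ℝ) / 2)) {σ : ℝ}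
    (hσ : ((i : ℝ) + 1) / 2 ≤ σ) : MeromorphicAt F (σ : ℂ) := by
  by_cases h2 : σ ≤ (i : ℝ) / 2 + 1
  · exact h.mer σ hσ h2
  · push Not at h2
    have ho : IsOpen {s : ℂ | (i : ℝ) / 2 + 1 < s.re} :=
      isOpen_lt continuous_const Complex.continuous_re
    have h3 := (Pool.Agent.R409.RA.LProd_analytic h1 (s := (σ : ℂ))
      (show (i : ℝ) / 2 + 1 < ((σ : ℝ) : ℂ).re by rwa [Complex.ofReal_re])).1
    refine (h3.congr ?_).meromorphicAt
    filter_upwards [ho.mem_nhds (show (σ : ℂ) ∈ {s : ℂ | (i : ℝ) / 2 + 1 < s.re} by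
      show (i : ℝ) / 2 + 1 < ((σ : ℝ) : ℂ).re
      rwa [Complex.ofReal_re])] with s hs
    exact (h.eq s hs).symm

lemma SCont.order_right (h : SCont i α F)
    (h1 : ∀ v j, ‖α v j‖ ≤ (Ideal.absNorm v.asIdeal : ℝ) ^ ((i : ℝ) / 2)) {σ : ℝ}
    (hσ : (i : ℝ) / 2 + 1 < σ) : meromorphicOrderAt F (σ : ℂ) = 0 := by
  have hs : (i : ℝ) / 2 + 1 < ((σ : ℝ) : ℂ).re := by rwa [Complex.ofReal_re]
  have ho : IsOpen {s : ℂ | (i : ℝ) / 2 + 1 < s.re} :=
    isOpen_lt continuous_const Complex.continuous_re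
  obtain ⟨h3, h4⟩ := Pool.Agent.R409.RA.LProd_analytic h1 hs
  have h5 : LProd α =ᶠ[𝓝 (σ : ℂ)] F := by
    filter_upwards [ho.mem_nhds hs] with s hs
    exact (h.eq s hs).symm
  exact Pool.Agent.R409.RA.order_of_ne (h3.congr h5) (by rwa [← h5.self_of_nhds])

/-- the excess of the real zeros over the real poles to the right of the central point -/
noncomputable def exc (i : ℕ) (F : ℂ → ℂ) : ℤ :=
  ∑ᶠ σ ∈ Ioi (((i : ℝ) + 1) / 2), (meromorphicOrderAt F (σ : ℂ)).untop₀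

lemma SCont.exc_eq (h : SCont i α F)
    (h1 : ∀ v j, ‖α v j‖ ≤ (Ideal.absNorm v.asIdeal : ℝ) ^ ((i : ℝ) / 2)) :
    (∑ᶠ x ∈ Ioc (0 : ℝ) 1, (meromorphicOrderAt
      (fun w => F ((((i : ℝ) + 1) / 2 : ℝ) + w)) (x : ℂ)).untop₀) = exc i F := by
  set s₀ : ℝ := ((i : ℝ) + 1) / 2 with hs₀
  unfold exc
  have e1 : (∑ᶠ x ∈ Ioc (0 : ℝ) 1, (meromorphicOrderAt (fun w => F (s₀ + w)) (x : ℂ)).untop₀) =
      ∑ᶠ x ∈ Ioc (0 : ℝ) 1, (meromorphicOrderAt F ((s₀ + x : ℝ) : ℂ)).untop₀ := by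
    refine finsum_mem_congr rfl fun x _ => ?_
    rw [order_shift']
    push_cast
    rfl
  have e2 : (∑ᶠ σ ∈ Ioi (((i : ℝ) + 1) / 2), (meromorphicOrderAt F (σ : ℂ)).untop₀) =
      ∑ᶠ σ ∈ Ioc s₀ (s₀ + 1), (meromorphicOrderAt F (σ : ℂ)).untop₀ := by
    refine finsum_mem_inter_support_eq' _ _ _ fun σ hσ => ?_
    rw [Function.mem_support] at hσ
    constructor
    · intro h2
      refine ⟨h2, ?_⟩
      by_contra h3
      push Not at h3
      rw [h.order_right h1 (by rw [hs₀] at h3; linarith)] at hσ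
      simp at hσ
    · exact fun h => h.1
  rw [e1, e2]
  have e3 : Ioc s₀ (s₀ + 1) = (fun x : ℝ => s₀ + x) '' Ioc (0 : ℝ) 1 := by
    rw [Set.image_const_add_Ioc]
    norm_num
  rw [e3, finsum_mem_image ((add_right_injective s₀).injOn)]

theorem SCont.law (h : SCont i α F)
    (h1 : ∀ v j, ‖α v j‖ ≤ (Ideal.absNorm v.asIdeal : ℝ) ^ ((i : ℝ) / 2))
    (h2 : ∀ v, CI (α v)) : ∃ (m : ℤ) (l : ℝ), l ≠ 0 ∧
      meromorphicOrderAt F ((((i : ℝ) + 1) / 2 : ℝ) : ℂ) = m ∧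
      meromorphicTrailingCoeffAt F ((((i : ℝ) + 1) / 2 : ℝ) : ℂ) = l ∧
      exp (Real.log |l| - Real.pi * exc i F * I) = l ∧
      ∀ γ : ℝ, Real.pi / 2 < γ → ∃ C T₀ : ℝ, 0 ≤ C ∧ 1 ≤ T₀ ∧ ∀ T ≥ T₀,
        ‖fsum qv (av i α) γ T - (Real.log |l| - Real.pi * exc i F * I -
          m * (Real.log T - Lam γ))‖ ≤ C / T := by
  have E := ed h1 h2
  set s₀ : ℝ := ((i : ℝ) + 1) / 2 with hs₀
  set Φ : ℂ → ℂ := fun w => F (s₀ + w) with hΦ
  have hmer : ∀ x ∈ Icc (0 : ℝ) 2, MeromorphicAt Φ (x : ℂ) := by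
    intro x hx
    have h3 : MeromorphicAt F ((s₀ : ℂ) + (x : ℂ)) := by
      have := h.mero h1 (σ := s₀ + x) (by rw [← hs₀]; linarith [hx.1])
      push_cast at this
      exact this
    exact h3.comp_analyticAt (g := fun w : ℂ => (s₀ : ℂ) + w) (by fun_prop)
  have hprod : ∀ w : ℂ, 1 < w.re →
      Φ w = ∏' v, ∏ j, (1 - av i α v j * (qv v : ℂ) ^ (-w))⁻¹ := by
    intro w hw
    rw [hΦ, ← LProd_shift]
    exact h.eq _ (by
      rw [Complex.add_re, Complex.ofReal_re, hs₀]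
      linarith)
  have D := E.mdata hmer hprod
  have htop := D.order_ne_top (x := 0) ⟨le_rfl, by norm_num⟩
  rw [Complex.ofReal_zero] at htop
  obtain ⟨m, hm⟩ := WithTop.ne_top_iff_exists.1 htop
  have hm' : meromorphicOrderAt F (s₀ : ℂ) = m := by
    have := order_shift' F s₀ 0
    rw [add_zero] at this
    rw [← this]
    exact hm.symm
  -- the coefficient is real
  obtain ⟨r₁, -, -, hr1, hi1, -, -, -⟩ := E.law hmer hprod hm.symm
    (γ := Real.pi) (by linarith [Real.pi_pos])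
  rw [coeff_shift'] at hr1
  rw [h.exc_eq h1] at hi1
  have key : ∀ r₀ : ℂ, exp r₀ = meromorphicTrailingCoeffAt F s₀ →
      r₀.im = -Real.pi * ((exc i F : ℤ) : ℝ) →
      meromorphicTrailingCoeffAt F s₀ = ((meromorphicTrailingCoeffAt F s₀).re : ℂ) ∧
      (meromorphicTrailingCoeffAt F s₀).re ≠ 0 ∧
      r₀ = Real.log |(meromorphicTrailingCoeffAt F s₀).re| - Real.pi * exc i F * I := by
    intro r₀ hr hi
    set l : ℂ := meromorphicTrailingCoeffAt F s₀ with hl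
    have hl0 : l ≠ 0 := by rw [← hr]; exact Complex.exp_ne_zero _
    have hlr : l = (((-1 : ℝ) ^ (exc i F) * Real.exp r₀.re : ℝ) : ℂ) := by
      have h3 : r₀ = (r₀.re : ℂ) + (exc i F : ℂ) * (-(Real.pi * Complex.I)) := by
        apply Complex.ext
        · simp
        · rw [hi]; simp; ring
      rw [← hr]
      nth_rewrite 1 [h3]
      rw [Complex.exp_add, Complex.exp_int_mul, Complex.exp_neg, Complex.exp_pi_mul_I]
      push_cast
      norm_num
      ring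
    have hlre : l = ((l.re : ℝ) : ℂ) := by
      rw [hlr, Complex.ofReal_re]
    have hlabs : Real.log |l.re| = r₀.re := by
      have h3 : |l.re| = Real.exp r₀.re := by
        rw [hlr, Complex.ofReal_re, abs_mul, Real.abs_exp]
        have : |(-1 : ℝ) ^ (exc i F)| = 1 := by
          rw [abs_zpow]; simp
        rw [this, one_mul]
      rw [h3, Real.log_exp]
    refine ⟨hlre, ?_, ?_⟩
    · intro h3
      rw [h3, Complex.ofReal_zero] at hlre
      exact hl0 hlre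
    · rw [hlabs]
      apply Complex.ext
      · simp
      · rw [hi]; simp
  obtain ⟨k1, k2, k3⟩ := key r₁ hr1 hi1
  refine ⟨m, (meromorphicTrailingCoeffAt F s₀).re, k2, hm', k1, ?_, fun γ hγ => ?_⟩
  · rw [← k3, hr1, ← k1]
  obtain ⟨r₀, C, T₀, hr, hi, hC, hT₀, hT⟩ := E.law hmer hprod hm.symm hγ
  rw [coeff_shift'] at hr
  rw [h.exc_eq h1] at hi
  obtain ⟨-, -, k3⟩ := key r₀ hr hi
  refine ⟨C, T₀, hC, hT₀, fun T hT' => ?_⟩
  rw [← k3]
  exact hT T hT'

end Pool.Agent.R409.RC
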