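import Pool.Agent.W187.UR.NF

/-!
# Euler products with real factors of any degree: the data for the rotated means
-/

set_option autoImplicit false

namespace Pool.Agent.R409.RC

open Complex MeasureTheory Filter Topology Set
open Pool.Agent.W189.ML Pool.Agent.W189.LC Pool.Agent.W187.UR
open scoped ComplexConjugate

/-! ### Real power sums -/

/-- the family is stable under complex conjugation: the polynomial with these zeros is real -/
def RealPoly {N : ℕ} (a : Fin N → ℂ) : Prop :=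
  ∃ P : Polynomial ℝ, P.map (algebraMap ℝ ℂ) = ∏ j, (Polynomial.X - Polynomial.C (a j))

lemma RealPoly.conj_map {N : ℕ} {a : Fin N → ℂ} (h : RealPoly a) :
    (Finset.univ.val.map fun j => conj (a j)) = Finset.univ.val.map a := by
  obtain ⟨P, hP⟩ := h
  have h1 : (∏ j, (Polynomial.X - Polynomial.C (a j))).roots = Finset.univ.val.map a := by
    have : ∏ j, (Polynomial.X - Polynomial.C (a j)) =
        (Multiset.map (fun z => Polynomial.X - Polynomial.C z) (Finset.univ.val.map a)).prod := by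
      rw [Multiset.map_map]
      rfl
    rw [this, Polynomial.roots_multiset_prod_X_sub_C]
  have h2 : (∏ j, (Polynomial.X - Polynomial.C (conj (a j)))).roots =
      Finset.univ.val.map fun j => conj (a j) := by
    have : ∏ j, (Polynomial.X - Polynomial.C (conj (a j))) =
        (Multiset.map (fun z => Polynomial.X - Polynomial.C z)
          (Finset.univ.val.map fun j => conj (a j))).prod := by
      rw [Multiset.map_map]
      rfl
    rw [this, Polynomial.roots_multiset_prod_X_sub_C]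
  rw [← h1, ← h2]
  congr 1
  have h3 : (P.map (algebraMap ℝ ℂ)).map (starRingEnd ℂ) = P.map (algebraMap ℝ ℂ) := by
    rw [Polynomial.map_map]
    congr 1
    ext x
    simp
  rw [← hP, ← h3, hP, Polynomial.map_prod]
  refine Finset.prod_congr rfl fun j _ => ?_
  simp

/-- the family is stable under complex conjugation -/
def CI {N : ℕ} (a : Fin N → ℂ) : Prop :=
  (Finset.univ.val.map fun j => conj (a j)) = Finset.univ.val.map a

lemma RealPoly.ci {N : ℕ} {a : Fin N → ℂ} (h : RealPoly a) : CI a := h.conj_map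

lemma CI.mul_real {N : ℕ} {a : Fin N → ℂ} (h : CI a) {r : ℂ} (hr : conj r = r) :
    CI fun j => a j * r := by
  unfold CI at h ⊢
  have e1 : (Finset.univ.val.map fun j => conj (a j * r)) =
      (Finset.univ.val.map fun j => conj (a j)).map fun z => z * r := by
    rw [Multiset.map_map]
    refine Multiset.map_congr rfl fun j _ => ?_
    simp [hr]
  have e2 : (Finset.univ.val.map fun j => a j * r) =
      (Finset.univ.val.map a).map fun z => z * r := by
    rw [Multiset.map_map]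
    rfl
  rw [e1, e2, h]

lemma CI.sum_real {N : ℕ} {a : Fin N → ℂ} (h : CI a) {f : ℂ → ℂ}
    (hf : ∀ j, f (conj (a j)) = conj (f (a j))) : (∑ j, f (a j)).im = 0 := by
  have h1 : ∑ j, f (conj (a j)) = ∑ j, f (a j) := by
    have e1 : ∑ j, f (conj (a j)) = (Multiset.map f (Finset.univ.val.map fun j => conj (a j))).sum := by
      rw [Multiset.map_map]
      rfl
    have e2 : ∑ j, f (a j) = (Multiset.map f (Finset.univ.val.map a)).sum := by
      rw [Multiset.map_map]
      rfl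
    rw [e1, e2, h]
  have h2 : conj (∑ j, f (a j)) = ∑ j, f (a j) := by
    rw [map_sum, ← h1]
    exact Finset.sum_congr rfl fun j _ => (hf j).symm
  exact Complex.conj_eq_iff_im.1 h2

/-! ### The series over prime powers -/

variable {P : Type} {N : ℕ} {q : P → ℝ} {a : P → Fin N → ℂ}

/-- numerical data of an Euler product of degree `N`, normalised at the central point -/
structure ED (q : P → ℝ) (a : P → Fin N → ℂ) : Prop where
  two_le : ∀ v, 2 ≤ q v
  sum : ∀ σ : ℝ, 1 < σ → Summable fun v => q v ^ (-σ)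
  norm_le : ∀ v j, ‖a v j‖ ≤ q v ^ (-(1 / 2) : ℝ)
  real : ∀ v, CI (a v)

/-- the coefficients, complex form -/
noncomputable def cP (a : P → Fin N → ℂ) (x : P × ℕ) : ℂ :=
  (∑ j, a x.1 j ^ (x.2 + 1)) / ((x.2 + 1 : ℕ) : ℂ)

/-- the coefficients -/
noncomputable def cR (a : P → Fin N → ℂ) (x : P × ℕ) : ℝ := (cP a x).re

lemma ED.q_pos (E : ED q a) (v : P) : 0 < q v := by linarith [E.two_le v]

lemma ED.log_nonneg (E : ED q a) (v : P) : 0 ≤ Real.log (q v) :=
  Real.log_nonneg (by linarith [E.two_le v])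

lemma ED.fr_nonneg (E : ED q a) (x : P × ℕ) : 0 ≤ fr q x := by
  unfold fr
  have := E.log_nonneg x.1
  positivity

lemma ED.cR_eq (E : ED q a) (x : P × ℕ) : ((cR a x : ℝ) : ℂ) = cP a x := by
  apply Complex.ext
  · rfl
  · rw [Complex.ofReal_im]
    unfold cP
    rw [Complex.div_natCast_im, (E.real x.1).sum_real (f := fun z => z ^ (x.2 + 1))
      (fun j => (map_pow _ _ _).symm), zero_div]

lemma ED.norm_cP (E : ED q a) (x : P × ℕ) :
    ‖cP a x‖ ≤ N * (q x.1 ^ (-(1 / 2) : ℝ)) ^ (x.2 + 1) := by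
  unfold cP
  have h0 : 0 ≤ q x.1 ^ (-(1 / 2) : ℝ) := Real.rpow_nonneg (E.q_pos x.1).le _
  rw [norm_div, Complex.norm_natCast]
  have h1 : ‖∑ j, a x.1 j ^ (x.2 + 1)‖ ≤ N * (q x.1 ^ (-(1 / 2) : ℝ)) ^ (x.2 + 1) := by
    refine (norm_sum_le_of_le (n := fun _ => (q x.1 ^ (-(1 / 2) : ℝ)) ^ (x.2 + 1)) _
      fun j _ => ?_).trans (le_of_eq ?_)
    · rw [norm_pow]
      exact pow_le_pow_left₀ (norm_nonneg _) (E.norm_le x.1 j) _
    · rw [Finset.sum_const, Finset.card_univ, Fintype.card_fin, nsmul_eq_mul]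
  refine (div_le_self (norm_nonneg _) ?_).trans h1
  push_cast
  linarith [(Nat.cast_nonneg x.2 : (0 : ℝ) ≤ x.2)]

lemma ED.abs_cR (E : ED q a) (x : P × ℕ) :
    |cR a x| ≤ N * (q x.1 ^ (-(1 / 2) : ℝ)) ^ (x.2 + 1) := by
  rw [← Real.norm_eq_abs, ← Complex.norm_real, E.cR_eq]
  exact E.norm_cP x

lemma ED.exp_fr (E : ED q a) (σ : ℝ) (x : P × ℕ) :
    Real.exp (-(σ * fr q x)) = (q x.1 ^ (-σ)) ^ (x.2 + 1) := by
  have hq0 := E.q_pos x.1
  rw [← Real.rpow_natCast, ← Real.rpow_mul hq0.le, Real.rpow_def_of_pos hq0]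
  unfold fr
  congr 1
  push_cast
  ring

lemma ED.rpow_le (E : ED q a) {σ : ℝ} (hσ : 1 ≤ σ) (v : P) : q v ^ (-σ) ≤ 1 / 2 := by
  have hq := E.two_le v
  calc q v ^ (-σ) ≤ q v ^ (-1 : ℝ) :=
        Real.rpow_le_rpow_of_exponent_le (by linarith) (by linarith)
    _ = (q v)⁻¹ := Real.rpow_neg_one _
    _ ≤ 2⁻¹ := inv_anti₀ (by norm_num) hq
    _ = 1 / 2 := by norm_num

lemma ED.term_le (E : ED q a) {σ : ℝ} (hσ : 1 / 2 ≤ σ) (x : P × ℕ) :
    |cR a x| * Real.exp (-(σ * fr q x)) ≤ (N * q x.1 ^ (-(1 / 2 + σ))) * (1 / 2) ^ x.2 := by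
  have hq0 := E.q_pos x.1
  rw [E.exp_fr]
  have h1 : q x.1 ^ (-(1 / 2) : ℝ) * q x.1 ^ (-σ) = q x.1 ^ (-(1 / 2 + σ)) := by
    rw [← Real.rpow_add hq0]
    congr 1
    ring
  have h2 : q x.1 ^ (-(1 / 2 + σ)) ≤ 1 / 2 := E.rpow_le (by linarith) x.1
  have h3 : 0 ≤ q x.1 ^ (-(1 / 2 + σ)) := Real.rpow_nonneg hq0.le _
  calc |cR a x| * (q x.1 ^ (-σ)) ^ (x.2 + 1)
      ≤ (N * (q x.1 ^ (-(1 / 2) : ℝ)) ^ (x.2 + 1)) * (q x.1 ^ (-σ)) ^ (x.2 + 1) :=
        mul_le_mul_of_nonneg_right (E.abs_cR x) (pow_nonneg (Real.rpow_nonneg hq0.le _) _)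
    _ = (N * q x.1 ^ (-(1 / 2 + σ))) * (q x.1 ^ (-(1 / 2 + σ))) ^ x.2 := by
        rw [mul_assoc, ← mul_pow, h1, pow_succ]
        ring
    _ ≤ (N * q x.1 ^ (-(1 / 2 + σ))) * (1 / 2) ^ x.2 := by
        gcongr

theorem ED.summable (E : ED q a) {σ : ℝ} (hσ : 1 / 2 < σ) :
    Summable fun x => |cR a x| * Real.exp (-(σ * fr q x)) := by
  have hg : Summable fun n : ℕ => (1 / 2 : ℝ) ^ n :=
    summable_geometric_of_lt_one (by norm_num) (by norm_num)
  have h1 := ((E.sum (1 / 2 + σ) (by linarith)).mul_left (N : ℝ)).mul_of_nonneg hg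
    (fun v => by
      have := E.q_pos v
      show 0 ≤ (N : ℝ) * q v ^ (-(1 / 2 + σ))
      positivity) (fun n => by positivity)
  exact Summable.of_nonneg_of_le (fun x => by positivity) (fun x => E.term_le hσ.le x) h1

theorem ED.csummable (E : ED q a) {w : ℂ} (hw : 1 / 2 < w.re) :
    Summable fun x : P × ℕ => (cR a x : ℂ) * exp (-(w * fr q x)) := by
  refine Summable.of_norm_bounded (E.summable hw) fun x => ?_
  rw [norm_mul, Complex.norm_real, Real.norm_eq_abs, Complex.norm_exp]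
  have : (-(w * fr q x)).re = -(w.re * fr q x) := by rw [Complex.neg_re, Complex.re_mul_ofReal]
  rw [this]

/-- the Euler factor at `v` in terms of the series -/
theorem ED.factor_sum (E : ED q a) {w : ℂ} (hw : 0 ≤ w.re) (v : P) :
    HasSum (fun n : ℕ => (cR a (v, n) : ℂ) * exp (-(w * fr q (v, n))))
      (∑' n : ℕ, (cR a (v, n) : ℂ) * exp (-(w * fr q (v, n)))) ∧
    exp (∑' n : ℕ, (cR a (v, n) : ℂ) * exp (-(w * fr q (v, n)))) =
      ∏ j, (1 - a v j * (q v : ℂ) ^ (-w))⁻¹ := by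
  have hq := E.two_le v
  have hq0 := E.q_pos v
  set x : ℂ := (q v : ℂ) ^ (-w) with hx
  have hxn : ‖x‖ ≤ 1 := by
    rw [hx, Complex.norm_cpow_eq_rpow_re_of_pos hq0]
    exact Real.rpow_le_one_of_one_le_of_nonpos (by linarith) (by simpa using hw)
  have hb : ∀ j, ‖a v j * x‖ < 1 := by
    intro j
    rw [norm_mul]
    have h1 : q v ^ (-(1 / 2) : ℝ) < 1 :=
      Real.rpow_lt_one_of_one_lt_of_neg (by linarith) (by norm_num)
    calc ‖a v j‖ * ‖x‖ ≤ q v ^ (-(1 / 2) : ℝ) * 1 := by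
          gcongr
          exact E.norm_le v j
      _ < 1 := by linarith
  have hs : ∀ z : ℂ, ‖z‖ < 1 → HasSum (fun n : ℕ => z ^ (n + 1) / ((n + 1 : ℕ) : ℂ)) (-log (1 - z)) := by
    intro z hz
    have := Complex.hasSum_taylorSeries_neg_log hz
    rw [← hasSum_nat_add_iff' 1] at this
    simpa using this
  have hterm : ∀ n : ℕ, (cR a (v, n) : ℂ) * exp (-(w * fr q (v, n))) =
      ∑ j, (a v j * x) ^ (n + 1) / ((n + 1 : ℕ) : ℂ) := by
    intro n
    have e1 : x ^ (n + 1) = exp (-(w * fr q (v, n))) := by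
      have hqc : (q v : ℂ) ≠ 0 := by exact_mod_cast hq0.ne'
      rw [hx, Complex.cpow_def_of_ne_zero hqc, ← Complex.exp_nat_mul]
      congr 1
      unfold fr
      rw [← Complex.ofReal_log hq0.le]
      push_cast
      ring
    rw [E.cR_eq, ← e1]
    unfold cP
    simp only
    rw [div_mul_eq_mul_div, Finset.sum_mul, Finset.sum_div]
    refine Finset.sum_congr rfl fun j _ => ?_
    rw [mul_pow]
  have hS : HasSum (fun n : ℕ => (cR a (v, n) : ℂ) * exp (-(w * fr q (v, n))))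
      (∑ j, -log (1 - a v j * x)) := by
    simp only [hterm]
    exact hasSum_sum fun j _ => hs _ (hb j)
  refine ⟨hS.summable.hasSum, ?_⟩
  rw [hS.tsum_eq, Complex.exp_sum]
  refine Finset.prod_congr rfl fun j _ => ?_
  have hne : 1 - a v j * x ≠ 0 := by
    intro h
    rw [sub_eq_zero] at h
    have := hb j
    rw [← h] at this
    simp at this
  rw [Complex.exp_neg, Complex.exp_log hne]

/-- the Euler product is the exponential of the series -/
theorem ED.hasProd (E : ED q a) {w : ℂ} (hw : 1 / 2 < w.re) :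
    HasProd (fun v => ∏ j, (1 - a v j * (q v : ℂ) ^ (-w))⁻¹) (exp (ser (fr q) (cR a) w)) := by
  have h1 : HasSum (fun x : P × ℕ => (cR a x : ℂ) * exp (-(w * fr q x)))
      (ser (fr q) (cR a) w) := (E.csummable hw).hasSum
  have h2 := h1.prod_fiberwise (fun v => (E.factor_sum (by linarith) v).1)
  have h3 := h2.cexp
  have h4 : (Complex.exp ∘ fun v => ∑' n : ℕ, (cR a (v, n) : ℂ) * exp (-(w * fr q (v, n)))) =
      fun v => ∏ j, (1 - a v j * (q v : ℂ) ^ (-w))⁻¹ := by
    funext v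
    exact (E.factor_sum (by linarith) v).2
  rw [h4] at h3
  exact h3

/-- the data for the abstract theorem -/
theorem ED.mdata (E : ED q a) {Φ : ℂ → ℂ} (hmer : ∀ x ∈ Icc (0 : ℝ) 2, MeromorphicAt Φ (x : ℂ))
    (hΦ : ∀ w : ℂ, 1 < w.re → Φ w = ∏' v, ∏ j, (1 - a v j * (q v : ℂ) ^ (-w))⁻¹) :
    MData (fr q) (cR a) Φ where
  lam_pos := E.fr_nonneg
  sum := fun σ hσ => E.summable (by linarith)
  mero := hmer
  eq := fun w hw => by rw [hΦ w hw, (E.hasProd (by linarith)).tprod_eq]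

/-! ### Cutting off the tail -/

/-- the sum over the prime powers up to `exp (exp T)` -/
noncomputable def fsum (q : P → ℝ) (a : P → Fin N → ℂ) (γ T : ℝ) : ℂ :=
  ∑' x : P × ℕ, if fr q x ≤ Real.exp T then
    (cR a x : ℂ) * exp ((γ * (fr q x / T) : ℝ) * I) * (om (fr q x / T) : ℂ) else 0

lemma ED.om_tail (E : ED q a) {T : ℝ} (hT : 0 < T) {x : P × ℕ} (hx : Real.exp T < fr q x) :
    |om (fr q x / T)| ≤ (Real.exp (Real.exp (5 / 6 * T)) + 1) * Real.exp (-(Real.exp T / 6)) *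
      Real.exp (-(2 / 3 * fr q x)) := by
  have hf := E.fr_nonneg x
  have h0 : 0 ≤ om (fr q x / T) := by
    unfold om
    exact inv_nonneg.2 (Real.Gamma_pos_of_pos (by positivity)).le
  rw [abs_of_nonneg h0]
  refine (om_le (a := 5 / 6 * T) (by positivity) (div_nonneg hf hT.le)).trans ?_
  have h1 : 5 / 6 * T * (fr q x / T) = 5 / 6 * fr q x := by field_simp
  rw [h1, mul_assoc, ← Real.exp_add]
  refine mul_le_mul_of_nonneg_left ?_
    (by positivity : (0 : ℝ) ≤ Real.exp (Real.exp (5 / 6 * T)) + 1)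
  apply Real.exp_le_exp.2
  linarith

lemma ED.term_tail (E : ED q a) (γ : ℝ) {T : ℝ} (hT : 0 < T) {x : P × ℕ}
    (hx : Real.exp T < fr q x) :
    ‖(cR a x : ℂ) * exp ((γ * (fr q x / T) : ℝ) * I) * (om (fr q x / T) : ℂ)‖ ≤
      (Real.exp (Real.exp (5 / 6 * T)) + 1) * Real.exp (-(Real.exp T / 6)) *
        (|cR a x| * Real.exp (-(2 / 3 * fr q x))) := by
  rw [norm_mul, norm_mul, Complex.norm_exp_ofReal_mul_I, mul_one, Complex.norm_real,
    Complex.norm_real, Real.norm_eq_abs, Real.norm_eq_abs]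
  calc |cR a x| * |om (fr q x / T)| ≤ |cR a x| *
        ((Real.exp (Real.exp (5 / 6 * T)) + 1) * Real.exp (-(Real.exp T / 6)) *
      Real.exp (-(2 / 3 * fr q x))) := by
        gcongr
        exact E.om_tail hT hx
    _ = _ := by ring

lemma ED.cmean_summable (E : ED q a) (γ : ℝ) {T : ℝ} (hT : 0 < T) :
    Summable fun x : P × ℕ =>
      ‖(cR a x : ℂ) * exp ((γ * (fr q x / T) : ℝ) * I) * (om (fr q x / T) : ℂ)‖ := by
  refine Summable.of_nonneg_of_le (fun x => norm_nonneg _) (fun x => ?_)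
    ((E.summable (σ := 1) (by norm_num)).mul_left (Real.exp (Real.exp T) + 1))
  have hf := E.fr_nonneg x
  rw [norm_mul, norm_mul, Complex.norm_exp_ofReal_mul_I, mul_one, Complex.norm_real,
    Complex.norm_real, Real.norm_eq_abs, Real.norm_eq_abs]
  have h0 : 0 ≤ om (fr q x / T) := by
    unfold om
    exact inv_nonneg.2 (Real.Gamma_pos_of_pos (by positivity)).le
  have h2 := om_le (a := T) hT.le (div_nonneg hf hT.le)
  have h3 : T * (fr q x / T) = 1 * fr q x := by field_simp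
  rw [h3] at h2
  rw [abs_of_nonneg h0]
  calc |cR a x| * om (fr q x / T) ≤ |cR a x| *
        ((Real.exp (Real.exp T) + 1) * Real.exp (-(1 * fr q x))) :=
        mul_le_mul_of_nonneg_left h2 (abs_nonneg _)
    _ = _ := by ring

theorem ED.fsum_sub (E : ED q a) (γ : ℝ) : ∃ C T₀ : ℝ, 0 ≤ C ∧ 1 ≤ T₀ ∧ ∀ T ≥ T₀,
    ‖fsum q a γ T - cmean (fr q) (cR a) γ T‖ ≤ C / T := by
  set S : ℝ := ∑' x : P × ℕ, |cR a x| * Real.exp (-(2 / 3 * fr q x)) with hS
  have hSs := E.summable (σ := 2 / 3) (by norm_num)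
  have hS0 : 0 ≤ S := tsum_nonneg fun x => by positivity
  refine ⟨24 * S, 24, by positivity, by norm_num, fun T hT => ?_⟩
  have hT0 : 0 < T := by linarith
  set D : ℝ := (Real.exp (Real.exp (5 / 6 * T)) + 1) * Real.exp (-(Real.exp T / 6)) with hD
  have hD0 : 0 ≤ D := by positivity
  -- the difference
  have h1 : fsum q a γ T - cmean (fr q) (cR a) γ T = ∑' x : P × ℕ,
      (if fr q x ≤ Real.exp T then (0 : ℂ) else
        -((cR a x : ℂ) * exp ((γ * (fr q x / T) : ℝ) * I) * (om (fr q x / T) : ℂ))) := by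
    unfold fsum cmean
    have hs := E.cmean_summable γ hT0
    rw [← Summable.tsum_sub]
    · refine tsum_congr fun x => ?_
      split_ifs <;> ring
    · refine Summable.of_norm_bounded hs fun x => ?_
      split_ifs
      · exact le_rfl
      · rw [norm_zero]; exact norm_nonneg _
    · exact hs.of_norm
  have h2 : ‖fsum q a γ T - cmean (fr q) (cR a) γ T‖ ≤ D * S := by
    rw [h1, hS, ← tsum_mul_left]
    refine tsum_of_norm_bounded (hSs.mul_left D).hasSum fun x => ?_
    split_ifs with hx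
    · rw [norm_zero]
      exact mul_nonneg hD0 (mul_nonneg (abs_nonneg _) (Real.exp_pos _).le)
    · rw [norm_neg]
      exact E.term_tail γ hT0 (not_le.1 hx)
  refine h2.trans ?_
  -- `D ≤ 24 / T`
  have h3 : D ≤ 24 / T := by
    have e1 : Real.exp (5 / 6 * T) ≤ Real.exp T / 12 := by
      have h4 : (12 : ℝ) ≤ Real.exp (T / 6) := by
        have h5 : Real.exp 4 ≤ Real.exp (T / 6) := Real.exp_le_exp.2 (by linarith)
        have h6 : (12 : ℝ) ≤ Real.exp 4 := by
          have := Real.quadratic_le_exp_of_nonneg (show (0 : ℝ) ≤ 4 by norm_num)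
          linarith
        linarith
      have h7 : Real.exp T = Real.exp (5 / 6 * T) * Real.exp (T / 6) := by
        rw [← Real.exp_add]; congr 1; ring
      rw [h7, le_div_iff₀ (by norm_num)]
      exact mul_le_mul_of_nonneg_left h4 (Real.exp_pos _).le
    have e2 : D ≤ 2 * Real.exp (-(Real.exp T / 12)) := by
      have h5 : Real.exp (Real.exp (5 / 6 * T)) + 1 ≤ 2 * Real.exp (Real.exp T / 12) := by
        have h6 := Real.exp_le_exp.2 e1
        have h7 : (1 : ℝ) ≤ Real.exp (Real.exp T / 12) := Real.one_le_exp (by positivity)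
        linarith
      rw [hD]
      calc _ ≤ 2 * Real.exp (Real.exp T / 12) * Real.exp (-(Real.exp T / 6)) := by gcongr
        _ = 2 * Real.exp (-(Real.exp T / 12)) := by
          rw [mul_assoc, ← Real.exp_add]
          congr 2
          ring
    refine e2.trans ?_
    have e3 : T / 12 ≤ Real.exp (Real.exp T / 12) := by
      have h5 := Real.add_one_le_exp T
      have h6 := Real.add_one_le_exp (Real.exp T / 12)
      linarith
    rw [Real.exp_neg, ← div_eq_mul_inv, div_le_div_iff₀ (Real.exp_pos _) hT0]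
    linarith
  calc D * S ≤ 24 / T * S := mul_le_mul_of_nonneg_right h3 hS0
    _ = 24 * S / T := by ring

/-- **the law for the finite sums** -/
theorem ED.law [Countable P] (E : ED q a) {Φ : ℂ → ℂ}
    (hmer : ∀ x ∈ Icc (0 : ℝ) 2, MeromorphicAt Φ (x : ℂ))
    (hΦ : ∀ w : ℂ, 1 < w.re → Φ w = ∏' v, ∏ j, (1 - a v j * (q v : ℂ) ^ (-w))⁻¹)
    {m : ℤ} (hm : meromorphicOrderAt Φ 0 = m) {γ : ℝ} (hγ : Real.pi / 2 < γ) :
    ∃ (r₀ : ℂ) (C T₀ : ℝ), Complex.exp r₀ = meromorphicTrailingCoeffAt Φ 0 ∧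
      r₀.im = -Real.pi *
        ((∑ᶠ x ∈ Ioc (0 : ℝ) 1, (meromorphicOrderAt Φ (x : ℂ)).untop₀ : ℤ) : ℝ) ∧
      0 ≤ C ∧ 1 ≤ T₀ ∧ ∀ T ≥ T₀,
      ‖fsum q a γ T - (r₀ - m * (Real.log T - Lam γ))‖ ≤ C / T := by
  obtain ⟨r₀, C, T₀, h1, h2, h3, h4, h5⟩ := mdata_rot (E.mdata hmer hΦ) hm hγ
  obtain ⟨C', T₁, h6, h7, h8⟩ := E.fsum_sub γ
  refine ⟨r₀, C + C', max T₀ T₁, h1, h2, by positivity, h4.trans (le_max_left _ _), fun T hT => ?_⟩
  have e1 := h5 T ((le_max_left _ _).trans hT)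
  have e2 := h8 T ((le_max_right _ _).trans hT)
  have e3 : fsum q a γ T - (r₀ - m * (Real.log T - Lam γ)) =
      (fsum q a γ T - cmean (fr q) (cR a) γ T) -
      (-cmean (fr q) (cR a) γ T - (m * (Real.log T - Lam γ) - r₀)) := by ring
  rw [e3, add_div, add_comm]
  exact (norm_sub_le _ _).trans (add_le_add e2 e1)

end Pool.Agent.R409.RC
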