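import Pool.Agent.R409.RC.NF

/-!
# Consequences of the law: finite sums, the order and the leading coefficient
-/

set_option autoImplicit false

namespace Pool.Agent.R409.RC

open Complex MeasureTheory Filter Topology Set
open Pool.Agent.W189.ML Pool.Agent.W189.LC Pool.Agent.W187.UR

variable {P : Type} {N : ℕ} {q : P → ℝ} {a : P → Fin N → ℂ}

lemma ED.finite_q (E : ED q a) (B : ℝ) : {v : P | q v ≤ B}.Finite := by
  by_cases hB : B < 2
  · refine Set.Finite.subset Set.finite_empty fun v hv => ?_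
    have := E.two_le v
    have h2 : q v ≤ B := hv
    linarith
  · push Not at hB
    have h1 := (E.sum 2 (by norm_num)).tendsto_cofinite_zero
    have h2 : (0 : ℝ) < B ^ (-2 : ℝ) := Real.rpow_pos_of_pos (by linarith) _
    have h3 := h1.eventually (gt_mem_nhds h2)
    rw [Filter.eventually_cofinite] at h3
    refine h3.subset fun v hv => ?_
    show ¬ q v ^ (-2 : ℝ) < B ^ (-2 : ℝ)
    rw [not_lt]
    exact Real.rpow_le_rpow_of_nonpos (E.q_pos v) hv (by norm_num)

lemma ED.finite_fr (E : ED q a) (Y : ℝ) : {x : P × ℕ | fr q x ≤ Y}.Finite := by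
  have h1 : {x : P × ℕ | fr q x ≤ Y} ⊆ {v : P | q v ≤ Real.exp Y} ×ˢ
      {k : ℕ | k ≤ ⌈Y / Real.log 2⌉₊} := by
    rintro ⟨v, k⟩ hx
    have hx' : ((k : ℝ) + 1) * Real.log (q v) ≤ Y := hx
    have hq := E.two_le v
    have hl2 : 0 < Real.log 2 := Real.log_pos (by norm_num)
    have hl : Real.log 2 ≤ Real.log (q v) := Real.log_le_log (by norm_num) hq
    have hk : (0 : ℝ) ≤ k := k.cast_nonneg
    constructor
    · show q v ≤ Real.exp Y
      have : Real.log (q v) ≤ Y := by nlinarith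
      calc q v = Real.exp (Real.log (q v)) := (Real.exp_log (E.q_pos v)).symm
        _ ≤ _ := Real.exp_le_exp.2 this
    · show k ≤ ⌈Y / Real.log 2⌉₊
      have h3 : (k : ℝ) ≤ Y / Real.log 2 := by
        rw [le_div_iff₀ hl2]
        nlinarith
      exact_mod_cast h3.trans (Nat.le_ceil _)
  exact ((E.finite_q _).prod (Set.finite_le_nat _)).subset h1

/-- the terms of the finite sum, `k = 1, 2, …` -/
noncomputable def pterm (q : P → ℝ) (a : P → Fin N → ℂ) (γ T : ℝ) (v : P) (k : ℕ) : ℂ :=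
  (∑ j, a v j ^ k) / k * exp ((γ * (k * Real.log (q v) / T) : ℝ) * I) *
    (om (k * Real.log (q v) / T) : ℂ)

theorem ED.fsum_eq (E : ED q a) (γ T : ℝ) : fsum q a γ T =
    ∑ᶠ x ∈ {x : P × ℕ | 1 ≤ x.2 ∧ q x.1 ^ x.2 ≤ Real.exp (Real.exp T)}, pterm q a γ T x.1 x.2 := by
  have hset : {x : P × ℕ | 1 ≤ x.2 ∧ q x.1 ^ x.2 ≤ Real.exp (Real.exp T)} =
      (fun x : P × ℕ => (x.1, x.2 + 1)) '' {x | fr q x ≤ Real.exp T} := by
    ext ⟨v, k⟩
    simp only [Set.mem_setOf_eq, Set.mem_image, Prod.mk.injEq, Prod.exists]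
    have hlog : ∀ k : ℕ, q v ^ k ≤ Real.exp (Real.exp T) ↔ (k : ℝ) * Real.log (q v) ≤ Real.exp T := by
      intro k
      rw [← Real.log_le_iff_le_exp (pow_pos (E.q_pos v) k), Real.log_pow]
    constructor
    · rintro ⟨h1, h2⟩
      refine ⟨v, k - 1, ?_, rfl, by omega⟩
      unfold fr
      simp only
      have : ((k - 1 : ℕ) : ℝ) + 1 = k := by
        rw [Nat.cast_sub h1]
        push_cast
        ring
      rw [this]
      exact (hlog k).1 h2
    · rintro ⟨v', k', h1, rfl, rfl⟩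
      refine ⟨by omega, (hlog _).2 ?_⟩
      push_cast
      exact h1
  rw [hset, finsum_mem_image]
  · have h1 : ∀ x : P × ℕ, pterm q a γ T (x.1, x.2 + 1).1 (x.1, x.2 + 1).2 =
        (cR a x : ℂ) * exp ((γ * (fr q x / T) : ℝ) * I) * (om (fr q x / T) : ℂ) := by
      intro x
      rw [E.cR_eq]
      unfold pterm cP fr
      push_cast
      rfl
    simp only [h1]
    unfold fsum
    rw [tsum_eq_finsum]
    · refine finsum_congr fun x => ?_
      rw [Set.mem_setOf_eq]
      by_cases hx : fr q x ≤ Real.exp T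
      · rw [if_pos hx, finsum_eq_if, if_pos hx]
      · rw [if_neg hx, finsum_eq_if, if_neg hx]
    · refine (E.finite_fr (Real.exp T)).subset fun x hx => ?_
      rw [Function.mem_support] at hx
      show fr q x ≤ Real.exp T
      by_contra h
      rw [if_neg h] at hx
      exact hx rfl
  · rintro ⟨v, k⟩ _ ⟨v', k'⟩ _ h
    simp only [Prod.mk.injEq] at h ⊢
    exact ⟨h.1, by omega⟩

/-! ### Reading off the order and the leading coefficient -/

section abstract_law

variable {V : ℝ → ℂ} {m : ℤ} {r₀ Λ : ℂ}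

/-- the abstract law -/
def Law (V : ℝ → ℂ) (m : ℤ) (r₀ Λ : ℂ) : Prop :=
  ∃ C T₀ : ℝ, 0 ≤ C ∧ 1 ≤ T₀ ∧ ∀ T ≥ T₀, ‖V T - (r₀ - m * (Real.log T - Λ))‖ ≤ C / T

lemma Law.tendsto (h : Law V m r₀ Λ) :
    Tendsto (fun T => V T - (r₀ - m * (Real.log T - Λ))) atTop (𝓝 0) := by
  obtain ⟨C, T₀, hC, hT₀, hT⟩ := h
  refine squeeze_zero_norm' ?_ (tendsto_const_nhds.div_atTop tendsto_id : Tendsto
    (fun T : ℝ => C / T) atTop (𝓝 0))
  filter_upwards [eventually_ge_atTop T₀] with T hT' using hT T hT'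

/-- the exponential form -/
theorem Law.exp_form (h : Law V m r₀ Λ) :
    Tendsto (fun T : ℝ => exp (V T) * (T : ℂ) ^ m) atTop (𝓝 (exp r₀ * exp (m * Λ))) := by
  have h1 : Tendsto (fun T : ℝ => exp (V T - (r₀ - m * (Real.log T - Λ))) *
      (exp r₀ * exp (m * Λ))) atTop (𝓝 (1 * (exp r₀ * exp (m * Λ)))) := by
    refine Tendsto.mul_const _ ?_
    have := (Complex.continuous_exp.tendsto 0).comp h.tendsto
    simpa [Function.comp_def] using this
  rw [one_mul] at h1
  refine h1.congr' ?_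
  filter_upwards [eventually_gt_atTop 0] with T hT
  have h3 : (T : ℂ) ^ m = Complex.exp (m * Real.log T) := by
    rw [Complex.exp_int_mul, ← Complex.ofReal_exp, Real.exp_log hT]
  rw [h3, ← Complex.exp_add, ← Complex.exp_add, ← Complex.exp_add]
  congr 1
  ring

/-- the exponent and the limit are determined -/
theorem zpow_unique {f : ℝ → ℂ} {m ρ : ℤ} {c₁ c₂ : ℂ} (h1 : Tendsto (fun T : ℝ => f T * (T : ℂ) ^ m)
    atTop (𝓝 c₁)) (h2 : Tendsto (fun T : ℝ => f T * (T : ℂ) ^ ρ) atTop (𝓝 c₂)) (hc₁ : c₁ ≠ 0)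
    (hc₂ : c₂ ≠ 0) : m = ρ ∧ c₁ = c₂ := by
  have h3 : Tendsto (fun T : ℝ => (T : ℂ) ^ (m - ρ)) atTop (𝓝 (c₁ / c₂)) := by
    have h4 : ∀ᶠ T : ℝ in atTop, f T * (T : ℂ) ^ ρ ≠ 0 := h2.eventually (isOpen_ne.mem_nhds hc₂)
    refine (h1.div h2 hc₂).congr' ?_
    filter_upwards [eventually_gt_atTop 0, h4] with T hT hne
    have hTc : (T : ℂ) ≠ 0 := by exact_mod_cast hT.ne'
    have hf : f T ≠ 0 := fun h => hne (by rw [h, zero_mul])
    simp only [Pi.div_apply]
    rw [zpow_sub₀ hTc, mul_div_mul_left _ _ hf]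
  have h4 : Tendsto (fun T : ℝ => T ^ (m - ρ)) atTop (𝓝 ‖c₁ / c₂‖) := by
    refine h3.norm.congr' ?_
    filter_upwards [eventually_gt_atTop 0] with T hT
    rw [norm_zpow, Complex.norm_real, Real.norm_eq_abs, abs_of_pos hT]
  have h5 : m - ρ = 0 := by
    rcases lt_trichotomy (m - ρ) 0 with h5 | h5 | h5
    · exfalso
      have h6 : Tendsto (fun T : ℝ => T ^ (m - ρ)) atTop (𝓝 0) := tendsto_zpow_atTop_zero h5
      have h7 := tendsto_nhds_unique h4 h6
      rw [norm_eq_zero] at h7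
      exact div_ne_zero hc₁ hc₂ h7
    · exact h5
    · exfalso
      have h6 : Tendsto (fun T : ℝ => T ^ (m - ρ)) atTop atTop := by
        obtain ⟨n, hn⟩ := Int.eq_ofNat_of_zero_le h5.le
        rw [hn]
        simp only [zpow_natCast]
        refine tendsto_pow_atTop ?_
        intro h0
        rw [h0] at hn
        rw [hn] at h5
        exact absurd h5 (by simp)
      exact not_tendsto_nhds_of_tendsto_atTop h6 _ h4
  have h6 : m = ρ := by linarith
  subst h6
  exact ⟨rfl, tendsto_nhds_unique h1 h2⟩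

/-- **the order and the leading coefficient** -/
theorem Law.iff_exp (h : Law V m r₀ Λ) (ρ : ℤ) {B : ℂ} (hB : B ≠ 0) :
    (m = ρ ∧ exp r₀ = B) ↔
      Tendsto (fun T : ℝ => exp (V T) * (T : ℂ) ^ ρ) atTop (𝓝 (B * exp (ρ * Λ))) := by
  constructor
  · rintro ⟨rfl, rfl⟩
    exact h.exp_form
  · intro h2
    obtain ⟨h3, h4⟩ := zpow_unique h.exp_form h2
      (mul_ne_zero (Complex.exp_ne_zero _) (Complex.exp_ne_zero _))
      (mul_ne_zero hB (Complex.exp_ne_zero _))
    refine ⟨h3, ?_⟩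
    rw [h3] at h4
    exact mul_right_cancel₀ (Complex.exp_ne_zero _) h4

/-- **the order from one sequence** -/
theorem Law.iff_seq (h : Law V m r₀ Λ) (ρ : ℝ) :
    (m : ℝ) = ρ ↔ ∃ T : ℕ → ℝ, Tendsto T atTop atTop ∧
      Tendsto (fun n => (V (T n)).re / Real.log (T n)) atTop (𝓝 (-ρ)) := by
  have h1 : Tendsto (fun T : ℝ => (V T).re / Real.log T) atTop (𝓝 (-(m : ℝ))) := by
    have h2 := (Complex.continuous_re.tendsto 0).comp h.tendsto
    have h3 : Tendsto (fun T : ℝ => (Real.log T)⁻¹) atTop (𝓝 0) :=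
      tendsto_inv_atTop_zero.comp Real.tendsto_log_atTop
    have h4 := (h2.add_const (r₀.re + m * Λ.re)).mul h3
    rw [mul_zero] at h4
    have h5 := h4.sub_const (m : ℝ)
    rw [zero_sub] at h5
    refine h5.congr' ?_
    filter_upwards [eventually_gt_atTop 1] with T hT
    have hl : Real.log T ≠ 0 := (Real.log_pos hT).ne'
    simp only [Function.comp_apply, Complex.sub_re, Complex.mul_re, Complex.intCast_re,
      Complex.intCast_im, Complex.ofReal_re, Complex.sub_im, Complex.ofReal_im]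
    field_simp
    ring
  constructor
  · intro h2
    refine ⟨fun n => n, tendsto_natCast_atTop_atTop, ?_⟩
    rw [← h2]
    exact h1.comp tendsto_natCast_atTop_atTop
  · rintro ⟨T, hT, h2⟩
    have h3 := tendsto_nhds_unique (h1.comp hT) h2
    linarith

end abstract_law

end Pool.Agent.R409.RC
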